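import Pool.Agent.Y762.HK.Fin
import Pool.Agent.W164.RC.Bad
import Pool.Agent.H304R3.HK.Fin

/-!
The zeros of `L(E/K, s)` for the ray class fields `K` of `ℚ(i)`, heights up to a power `θ` of the norm
of the modulus: from the Hecke characters of infinity type one (the case `r = K = 1` of
`Pool.Agent.Y762.HK.hk_fin`).
-/

set_option autoImplicit false

open Complex Filter Topology Set NumberField IsDedekindDomain
open H370 (zset mult NN Nd Ns)
open H385 (ZI RQ im1 chiZ FQs phiQ nrm)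
open Pool.Agent.H82R3.EK (cnt cnt_prod NN_eq Ns_le strip line)
open Pool.Agent.H304R3.HK (tc HC LH aH psi psi uh_psi one_le_norm_tc goodH tc_star_mul)
open Pool.Agent.W164.RC

namespace Pool.Agent.Helper29K9.Ray

theorem psik_one (χ : ZI →* ℂ) : Pool.Agent.W354.PK.psik 1 χ = psi χ := by
  ext a
  simp [Pool.Agent.W354.PK.psik, psi]

theorem LK_one (χ : ZI →* ℂ) : Pool.Agent.W354.PK.LK 1 χ = LH χ := by
  have hb : Pool.Agent.W354.PK.bK 1 χ = Pool.Agent.H304R3.HK.bH χ := by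
    funext n
    unfold Pool.Agent.W354.PK.bK Pool.Agent.H304R3.HK.bH
    rw [psik_one]
  have ht : Pool.Agent.W354.PK.THk 1 (Pool.Agent.H304R3.HK.bH χ) =
      Pool.Agent.H304R3.HK.TH (Pool.Agent.H304R3.HK.bH χ) := by
    funext y
    unfold Pool.Agent.W354.PK.THk Pool.Agent.H304R3.HK.TH
    simp only [pow_one]
  funext s
  unfold Pool.Agent.W354.PK.LK LH Pool.Agent.W354.PK.FFk Pool.Agent.H304R3.HK.FF
  rw [hb, ht]
  simp only [Nat.cast_one]

theorem hc_of_prim {q : ZI} {χ : MulChar (RQ q) ℂ} {d : ZI} {ψ : ZI →* ℂ}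
    (h : Pool.Agent.Y762.HK.PrimData q χ d ψ) (hq : q ≠ 0) (hk : chiZ q χ im1 = -I) :
    HC d ψ where
  q0 := h.ne hq
  per := h.per
  supp := h.supp
  nrm := h.nrm
  unit := by
    have := (h.hck hq 1 (by rw [pow_one]; exact hk)).unit
    rw [pow_one] at this
    exact this
  prim := h.prim

theorem sum_fam {q : ZI} (hq : q ≠ 0) (f : MulChar (RQ q) ℂ → ℝ) :
    ∑ x ∈ Pool.Agent.Y762.HK.Fam q 1 1, f x.2 = ∑ χ ∈ FQs q, f χ := by
  refine Finset.sum_nbij' (fun x => x.2) (fun χ => (1, χ)) ?_ ?_ ?_ ?_ ?_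
  · intro x hx
    rw [Pool.Agent.Y762.HK.mem_Fam q hq] at hx
    have h1 : x.1 = 1 := by omega
    rw [(H385.fq_finite q hq).2.2, hx.2, h1, pow_one]
  · intro χ hχ
    rw [Pool.Agent.Y762.HK.mem_Fam q hq]
    rw [(H385.fq_finite q hq).2.2] at hχ
    refine ⟨⟨le_refl _, by norm_num⟩, ?_⟩
    simp only [pow_one]
    exact hχ
  · intro x hx
    rw [Pool.Agent.Y762.HK.mem_Fam q hq] at hx
    have h1 : x.1 = 1 := by omega
    exact Prod.ext h1.symm rfl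
  · intro χ _
    rfl
  · intro x _
    rfl

theorem fam_one {q : ZI} (hq : q ≠ 0) {x : ℕ × MulChar (RQ q) ℂ}
    (hx : x ∈ Pool.Agent.Y762.HK.Fam q 1 1) : x.1 = 1 := by
  rw [Pool.Agent.Y762.HK.mem_Fam q hq] at hx
  omega

theorem card_fam {q : ZI} (hq : q ≠ 0) :
    ((Pool.Agent.Y762.HK.Fam q 1 1).card : ℝ) = ((FQs q).card : ℝ) := by
  have h := sum_fam hq (fun _ => (1 : ℝ))
  simpa using h

/-- choice of the length of the Dirichlet polynomial -/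
theorem h_choice (θ ε : ℝ) (hθ : 0 < θ) (hε : 0 < ε) :
    ∃ h C δ : ℝ, 1 / 2 < h ∧ h ≤ 1 ∧ 1 ≤ C ∧ 0 < δ ∧
      Pool.Agent.Y762.cH h + ε / 2 ≤ Pool.Agent.Y762.cH ((1 + θ) / (1 + 2 * θ)) + ε ∧
      ∀ Q T : ℝ, 1 ≤ Q → C ≤ T → T ≤ (Q ^ 2) ^ θ →
        Real.exp (2 * h * Real.log (Q * (2 + T))) ≤ Q ^ 2 * T := by
  set h0 : ℝ := (1 + θ) / (1 + 2 * θ) with hh0
  have hd : 0 < 1 + 2 * θ := by linarith
  have h01 : 1 / 2 < h0 := by
    rw [hh0, lt_div_iff₀ hd]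
    linarith
  have h02 : h0 < 1 := by
    rw [hh0, div_lt_one hd]
    linarith
  have hcont : ContinuousAt Pool.Agent.Y762.cH h0 := by
    unfold Pool.Agent.Y762.cH
    have hs2 : 0 < Real.sqrt 2 := by positivity
    have hs1 : 1 < Real.sqrt 2 := by
      rw [Real.lt_sqrt (by norm_num)]
      norm_num
    have hx0 : 0 < h0 / Real.sqrt 2 := div_pos (by linarith) hs2
    have hx1 : h0 / Real.sqrt 2 < Real.pi := by
      rw [div_lt_iff₀ hs2]
      nlinarith [Real.pi_gt_three]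
    have hsin : Real.sin (h0 / Real.sqrt 2) ≠ 0 := (Real.sin_pos_of_pos_of_lt_pi hx0 hx1).ne'
    have hcot : Real.cot = fun x => Real.cos x / Real.sin x := by
      funext x
      exact Real.cot_eq_cos_div_sin x
    rw [hcot]
    refine ContinuousAt.add (by fun_prop) ?_
    refine ContinuousAt.div_const ?_ _
    exact ContinuousAt.div (by fun_prop) (by fun_prop) hsin
  obtain ⟨h, hh1, hh2, hh3⟩ : ∃ h : ℝ, 1 / 2 < h ∧ h < h0 ∧
      Pool.Agent.Y762.cH h < Pool.Agent.Y762.cH h0 + ε / 2 := by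
    have e1 : ∀ᶠ h in 𝓝[<] h0, Pool.Agent.Y762.cH h < Pool.Agent.Y762.cH h0 + ε / 2 :=
      (hcont.eventually (gt_mem_nhds (by linarith))).filter_mono nhdsWithin_le_nhds
    have e2 : ∀ᶠ h in 𝓝[<] h0, 1 / 2 < h ∧ h < h0 := by
      filter_upwards [Ioo_mem_nhdsLT h01] with h hh
      exact hh
    obtain ⟨h, a, b, c⟩ := (e1.and e2).exists
    exact ⟨h, b, c, a⟩
  -- exponents
  obtain ⟨δ, hδ⟩ : ∃ δ : ℝ, δ = 2 * (1 + 2 * θ) * (h0 - h) := ⟨_, rfl⟩
  have hδ0 : 0 < δ := by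
    rw [hδ]
    have : 0 < h0 - h := by linarith
    positivity
  have hδ2 : 2 - 2 * h - 2 * θ * (2 * h - 1) = δ := by
    rw [hδ, hh0]
    field_simp
    ring
  obtain ⟨C, hC⟩ : ∃ C : ℝ, C = max 2 ((4 : ℝ) ^ (2 * θ / δ)) := ⟨_, rfl⟩
  have hC2 : 2 ≤ C := by rw [hC]; exact le_max_left _ _
  have hC4 : (4 : ℝ) ^ (2 * θ / δ) ≤ C := by rw [hC]; exact le_max_right _ _
  refine ⟨h, C, δ, hh1, by linarith, by linarith, hδ0, by linarith, ?_⟩
  intro Q T hQ hT1 hT2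
  have hT : 2 ≤ T := hC2.trans hT1
  have hQ0 : 0 < Q := by linarith
  have hT0 : 0 < T := by linarith
  have hQT : Q * (2 + T) ≤ 2 * Q * T := by nlinarith
  set ℓ := Real.log Q with hℓ
  set t := Real.log T with ht
  have hℓ0 : 0 ≤ ℓ := Real.log_nonneg hQ
  have ht0 : 0 ≤ t := Real.log_nonneg (by linarith)
  have htθ : t ≤ 2 * θ * ℓ := by
    have h1 := Real.log_le_log hT0 hT2
    rw [Real.log_rpow (by positivity), Real.log_pow] at h1
    push_cast at h1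
    linarith
  have h4 : Real.log 4 * (2 * θ / δ) ≤ t := by
    have h1 := Real.log_le_log (by positivity) (hC4.trans hT1)
    rw [Real.log_rpow (by norm_num)] at h1
    linarith
  have hl4 : Real.log 4 ≤ δ * ℓ := by
    have h2 : Real.log 4 * (2 * θ / δ) ≤ 2 * θ * ℓ := h4.trans htθ
    rw [mul_div_assoc', div_le_iff₀ hδ0] at h2
    have h3 : 2 * θ * (Real.log 4) ≤ 2 * θ * (δ * ℓ) := by linarith
    exact le_of_mul_le_mul_left h3 (by linarith)
  have hlog : Real.log (Q * (2 + T)) ≤ Real.log 2 + ℓ + t := by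
    have h1 := Real.log_le_log (by positivity) hQT
    rwa [Real.log_mul (by positivity) hT0.ne', Real.log_mul (by norm_num) hQ0.ne'] at h1
  have hl2 : Real.log 4 = 2 * Real.log 2 := by
    rw [show (4 : ℝ) = 2 ^ 2 by norm_num, Real.log_pow]
    push_cast
    ring
  have hl20 : 0 < Real.log 2 := Real.log_pos (by norm_num)
  have hrhs : Q ^ 2 * T = Real.exp (2 * ℓ + t) := by
    rw [Real.exp_add, mul_comm (2 : ℝ) ℓ, Real.exp_mul, hℓ, ht, Real.exp_log hQ0, Real.exp_log hT0]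
    norm_num
  rw [hrhs]
  apply Real.exp_le_exp.2
  have h5 : 2 * h * Real.log (Q * (2 + T)) ≤ 2 * h * (Real.log 2 + ℓ + t) :=
    mul_le_mul_of_nonneg_left hlog (by linarith)
  refine h5.trans ?_
  -- 2h (log 2 + ℓ + t) ≤ 2 ℓ + t
  have h6 : (2 * h - 1) * t ≤ (2 * h - 1) * (2 * θ * ℓ) :=
    mul_le_mul_of_nonneg_left htθ (by linarith)
  have h7 : 2 * h * Real.log 2 ≤ Real.log 4 := by
    rw [hl2]
    nlinarith
  have h8 : 2 * ℓ - 2 * h * ℓ - (2 * h - 1) * (2 * θ * ℓ) = δ * ℓ := by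
    rw [← hδ2]
    ring
  nlinarith

theorem main_heights : ∃ (F : ZI → ℂ → ℂ) (C : ℝ → ℝ → ℝ), ∀ q : ZI, q ≠ 0 → two2 ∣ q →
    Differentiable ℂ (F q) ∧
    (∀ (K : Type) [Field K] [NumberField K] (ι : ZI →+* 𝓞 K)
      (art : (RQ q)ˣ →* (𝓞 K ≃+* 𝓞 K)), IsRayClassField q K ι art →
      4 * Nat.card art.range = phiQ q ∧
      ∀ s : ℂ, 3 / 2 < s.re → HasProd (open Classical in fun v : HeightOneSpectrum (𝓞 K) =>
        if ι q ∈ v.asIdeal then 1 else eulerFactor s v) (F q s)) ∧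
    ∀ θ ε T : ℝ, 0 < θ → 0 < ε →
      C θ ε * (1 + Real.sqrt (Real.log (Zsqrtd.norm q : ℝ))) ≤ T →
      T ≤ (Zsqrtd.norm q : ℝ) ^ θ →
      (zerosH (F q) T).Finite ∧
      (1 - ε) * ((phiQ q : ℝ) / 4 * (T / Real.pi) * Real.log ((Zsqrtd.norm q : ℝ) * T ^ 2)) ≤
        (NH (F q) T : ℝ) ∧
      (2 - Pool.Agent.Y762.cH ((1 + θ) / (1 + 2 * θ)) - ε) * (NH (F q) T : ℝ) ≤
        (NH₀ (F q) T : ℝ) := by
  classical
  obtain ⟨cd, pr, hp⟩ := Pool.Agent.Y762.HK.exists_prim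
  have hprim : ∀ q : ZI, q ≠ 0 → ∀ χ ∈ FQs q, cd q χ ∣ q ∧ HC (cd q χ) (pr q χ) ∧
      ∀ a : ZI, IsCoprime a q → pr q χ a = chiZ q χ a :=
    fun q hq χ hχ => ⟨(hp q hq χ).dvd,
      hc_of_prim (hp q hq χ) hq (((H385.fq_finite q hq).2.2 χ).1 hχ), (hp q hq χ).eq⟩
  obtain ⟨A, hA, hgood⟩ := goodH
  -- the estimate for the family modulo `q`
  have key : ∀ θ ε : ℝ, 0 < θ → 0 < ε → ∃ C : ℝ, 1 ≤ C ∧ ∀ (q : ZI) (T : ℝ), q ≠ 0 →
      C * (1 + Real.sqrt (Real.log (Zsqrtd.norm q : ℝ))) ≤ T → T ≤ (Zsqrtd.norm q : ℝ) ^ θ →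
      (2 - Pool.Agent.Y762.cH ((1 + θ) / (1 + 2 * θ)) - ε) *
          ∑ χ ∈ FQs q, (NN (LH (pr q χ)) T (2 * T) : ℝ) ≤
        ∑ χ ∈ FQs q, (Ns (LH (pr q χ)) T (2 * T) : ℝ) ∧
      (1 - ε) * (T / (2 * Real.pi) * Real.log ((Zsqrtd.norm q : ℝ) * T ^ 2)) * ((FQs q).card : ℝ) ≤
        ∑ χ ∈ FQs q, (NN (LH (pr q χ)) T (2 * T) : ℝ) := by
    intro θ ε hθ hε
    obtain ⟨h, C1, δ, hh, hh1, hC1, hδ, hcst, hX⟩ := h_choice θ ε hθ hε
    obtain ⟨C0, hC0, H⟩ := Pool.Agent.Y762.HK.hk_fin cd pr hp h (min (ε / 2) (1 / 2)) hh hh1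
      (by positivity)
    refine ⟨2 * max C0 C1, by linarith [le_max_left C0 C1], ?_⟩
    intro q T hq hT1 hT2
    have hQ1 : 1 ≤ ‖tc q‖ := one_le_norm_tc hq
    have hn : (Zsqrtd.norm q : ℝ) = ‖tc q‖ ^ 2 := (tc_star_mul q).symm
    rw [hn] at hT1 hT2 ⊢
    have hM0 : C0 ≤ max C0 C1 := le_max_left _ _
    have hM1 : C1 ≤ max C0 C1 := le_max_right _ _
    set M := max C0 C1 with hM
    have hM1' : 1 ≤ M := by linarith
    have hlog0 : 0 ≤ Real.log ‖tc q‖ := Real.log_nonneg hQ1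
    have hlog2 : Real.log (‖tc q‖ ^ 2) = 2 * Real.log ‖tc q‖ := by
      rw [Real.log_pow]
      norm_num
    have hs0 := Real.sqrt_nonneg (Real.log (‖tc q‖ ^ 2))
    have hTC : C1 ≤ T := by nlinarith
    have hT0 : 1 ≤ T := by linarith
    have hTa : C0 * (1 + Real.sqrt (Real.log (‖tc q‖ * ((1 : ℕ) + (1 : ℕ))))) ≤ T := by
      refine le_trans ?_ hT1
      have h1 : Real.sqrt (Real.log (‖tc q‖ * ((1 : ℕ) + (1 : ℕ)))) ≤
          1 + Real.sqrt (Real.log (‖tc q‖ ^ 2)) := by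
        have h2 : Real.log (‖tc q‖ * ((1 : ℕ) + (1 : ℕ))) = Real.log ‖tc q‖ + Real.log 2 := by
          rw [← Real.log_mul (by positivity) (by norm_num)]
          norm_num
        have h3 : Real.log 2 ≤ 1 := by linarith [Real.log_two_lt_d9]
        rw [Real.sqrt_le_left (by positivity), h2]
        have h4 := Real.sq_sqrt (show 0 ≤ Real.log (‖tc q‖ ^ 2) by rw [hlog2]; linarith)
        nlinarith
      have h5 : C0 * (1 + Real.sqrt (Real.log (‖tc q‖ * ((1 : ℕ) + (1 : ℕ))))) ≤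
          M * (1 + (1 + Real.sqrt (Real.log (‖tc q‖ ^ 2)))) := by
        apply mul_le_mul hM0 (by linarith) (by positivity) (by linarith)
      refine h5.trans ?_
      nlinarith
    have hTb := hX ‖tc q‖ T hQ1 hTC hT2
    obtain ⟨-, r1, -, r3⟩ := H q 1 1 T hq (le_refl _) (le_refl _) hTa (by
      have e1 : ‖tc q‖ * (((1 : ℕ) : ℝ) + ((1 : ℕ) : ℝ) + T) = ‖tc q‖ * (2 + T) := by
        push_cast
        ring
      have e2 : ‖tc q‖ ^ 2 * ((1 : ℕ) : ℝ) * T = ‖tc q‖ ^ 2 * T := by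
        push_cast
        ring
      rw [e1, e2]
      exact hTb)
    have s1 : ∑ x ∈ Pool.Agent.Y762.HK.Fam q 1 1,
        (NN (Pool.Agent.W354.PK.LK x.1 (pr q x.2)) T (2 * T) : ℝ) =
        ∑ χ ∈ FQs q, (NN (LH (pr q χ)) T (2 * T) : ℝ) := by
      rw [← sum_fam hq (fun χ => (NN (LH (pr q χ)) T (2 * T) : ℝ))]
      refine Finset.sum_congr rfl fun x hx => ?_
      rw [fam_one hq hx, LK_one]
    have s2 : ∑ x ∈ Pool.Agent.Y762.HK.Fam q 1 1,
        (Ns (Pool.Agent.W354.PK.LK x.1 (pr q x.2)) T (2 * T) : ℝ) =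
        ∑ χ ∈ FQs q, (Ns (LH (pr q χ)) T (2 * T) : ℝ) := by
      rw [← sum_fam hq (fun χ => (Ns (LH (pr q χ)) T (2 * T) : ℝ))]
      refine Finset.sum_congr rfl fun x hx => ?_
      rw [fam_one hq hx, LK_one]
    rw [s1, s2] at r1
    rw [s1, card_fam hq] at r3
    have hS0 : 0 ≤ ∑ χ ∈ FQs q, (NN (LH (pr q χ)) T (2 * T) : ℝ) :=
      Finset.sum_nonneg fun _ _ => Nat.cast_nonneg _
    have hm1 : min (ε / 2) (1 / 2) ≤ ε / 2 := min_le_left _ _
    have hm2 : min (ε / 2) (1 / 2) ≤ 1 / 2 := min_le_right _ _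
    refine ⟨le_trans (mul_le_mul_of_nonneg_right (by linarith) hS0) r1, le_trans ?_ r3⟩
    apply mul_le_mul_of_nonneg_right _ (Nat.cast_nonneg _)
    have hlogT : Real.log (‖tc q‖ ^ 2 * T ^ 2) = 2 * Real.log (‖tc q‖ * T) := by
      rw [← mul_pow, Real.log_pow]
      norm_num
    have hL : Real.log (‖tc q‖ * T) ≤ Real.log (‖tc q‖ * (((1 : ℕ) : ℝ) + ((1 : ℕ) : ℝ) + T)) := by
      apply Real.log_le_log (by positivity)
      apply mul_le_mul_of_nonneg_left _ (by positivity)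
      push_cast
      linarith
    have hL0 : 0 ≤ Real.log (‖tc q‖ * T) := Real.log_nonneg (by nlinarith)
    have e3 : T / (2 * Real.pi) * Real.log (‖tc q‖ ^ 2 * T ^ 2) =
        T / Real.pi * Real.log (‖tc q‖ * T) := by
      rw [hlogT]
      field_simp
    rw [e3]
    have hTpi : 0 ≤ T / Real.pi := by positivity
    have e4 : T / Real.pi * Real.log (‖tc q‖ * T) ≤
        T / Real.pi * Real.log (‖tc q‖ * (((1 : ℕ) : ℝ) + ((1 : ℕ) : ℝ) + T)) :=
      mul_le_mul_of_nonneg_left hL hTpi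
    calc (1 - ε) * (T / Real.pi * Real.log (‖tc q‖ * T)) ≤
        (1 - min (ε / 2) (1 / 2)) * (T / Real.pi * Real.log (‖tc q‖ * T)) :=
          mul_le_mul_of_nonneg_right (by linarith) (mul_nonneg hTpi hL0)
      _ ≤ _ := mul_le_mul_of_nonneg_left e4 (by linarith)
  choose! C hC1 hC using key
  refine ⟨fun q s => FE pr q (s - 1 / 2) * FE pr (star q) (s - 1 / 2), C, fun q hq h2 => ?_⟩
  have hq' : star q ≠ 0 := fun h => hq (by rw [← star_star q, h, star_zero])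
  have hd1 := FE_diff cd pr hprim hq
  have hd2 := FE_diff cd pr hprim hq'
  refine ⟨?_, ?_, ?_⟩
  · exact (hd1.comp (by fun_prop)).mul (hd2.comp (by fun_prop))
  · intro K _ _ ι art H
    exact ⟨ray_card hq h2 H, fun s hs => hasProd_K cd pr hprim hq h2 H hs⟩
  · intro θ ε T hθ hε hT1 hT2
    have hC1' := hC1 θ ε hθ hε
    have hn : (Zsqrtd.norm q : ℝ) = ‖tc q‖ ^ 2 := (tc_star_mul q).symm
    have hn' : (Zsqrtd.norm (star q) : ℝ) = (Zsqrtd.norm q : ℝ) := by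
      rw [hn, ← tc_star_mul (star q), norm_tc_star]
    have hT0 : 1 ≤ T := by
      refine le_trans ?_ hT1
      nlinarith [Real.sqrt_nonneg (Real.log (Zsqrtd.norm q : ℝ))]
    -- non-vanishing
    have hne : ∀ q : ZI, q ≠ 0 → ∀ z : ℂ, 1 ≤ z.re → 1 ≤ z.im → FE pr q z ≠ 0 := by
      intro q hq z h1 h3
      unfold FE
      rw [Finset.prod_ne_zero_iff]
      intro χ hχ
      obtain ⟨b1, b2, b3⟩ := hprim q hq χ hχ
      exact mul_ne_zero ((hgood _ _ b2).2.2.2.nzr z h1 h3)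
        (Cq_ne q (uh_psi _ _ b2) (by linarith))
    have hG : ∀ z : ℂ, 1 ≤ z.re → 1 ≤ z.im → FE pr q z * FE pr (star q) z ≠ 0 :=
      fun z h1 h3 => mul_ne_zero (hne q hq z h1 h3) (hne _ hq' z h1 h3)
    obtain ⟨t1, t2, t3⟩ := tot_cnt cd pr hprim hq hT0
    have e1 := N_shift (G := fun z => FE pr q z * FE pr (star q) z) hT0 hG
    have e2 := N₀_shift (G := fun z => FE pr q z * FE pr (star q) z) hT0 hG
    have e3 := zeros_shift (G := fun z => FE pr q z * FE pr (star q) z) hT0 hG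
    obtain ⟨a1, a2⟩ := hC θ ε hθ hε q T hq hT1 hT2
    obtain ⟨b1, b2⟩ := hC θ ε hθ hε (star q) T hq' (by rw [hn']; exact hT1)
      (by rw [hn']; exact hT2)
    rw [hn'] at b2
    have c1 := H385.fq_card q (by have := eight_le_nrm hq h2; omega)
    have c2 := H385.fq_card (star q) (by
      have := eight_le_nrm hq' (two_dvd_star h2); omega)
    rw [phiQ_star] at c2
    rw [c1] at a2
    rw [c2] at b2
    refine ⟨?_, ?_, ?_⟩
    · rw [e3]
      exact t3.image _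
    · rw [e1, t1]
      push_cast
      have e5 : (1 - ε) * ((phiQ q : ℝ) / 4 * (T / Real.pi) *
          Real.log ((Zsqrtd.norm q : ℝ) * T ^ 2)) =
          2 * ((1 - ε) * (T / (2 * Real.pi) * Real.log ((Zsqrtd.norm q : ℝ) * T ^ 2)) *
            ((phiQ q : ℝ) / 4)) := by
        field_simp
      rw [e5]
      linarith
    · rw [e1, e2, t1]
      have t2' : ((∑ χ ∈ FQs q, Ns (LH (pr q χ)) T (2 * T) +
        ∑ χ ∈ FQs (star q), Ns (LH (pr (star q) χ)) T (2 * T) : ℕ) : ℝ) ≤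
        ((cnt (fun z => FE pr q z * FE pr (star q) z) (line T (2 * T)) : ℕ) : ℝ) := by
        exact_mod_cast t2
      push_cast at t2' ⊢
      linarith

end Pool.Agent.Helper29K9.Ray
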